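import Pool.Agent.Run7.h4.YM.SUN
import Pool.Agent.Run7.h4.VS.FDefs2

/-!
# Decimation: the minimal action does not decrease when the lattice is refined

The coarse link is the product of `r` fine links; the coarse plaquette is a product of conjugates of
`r ^ 2` fine plaquettes; the average of the action over the `r ^ 4` offsets is at most the fine
action.
-/

set_option linter.unusedSectionVars false
set_option linter.unusedVariables false

open Matrix
open Run7.h4.YM Run7.h4.VS

namespace Pool.Agent.Run7.h897.DC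

noncomputable section

variable {N : ℕ}

/-! ### the centre -/

/-- `exp (2 π i / N)` -/
def xi (N : ℕ) : ℂ := Complex.exp (2 * Real.pi * Complex.I / N)

theorem xi_pow (m : ℕ) : xi N ^ m = Complex.exp (2 * Real.pi * Complex.I * (m / N)) := by
  unfold xi
  rw [← Complex.exp_nat_mul]
  congr 1
  ring

theorem xi_N : xi N ^ N = 1 := by
  rw [xi_pow]
  by_cases h : N = 0
  · subst h; simp
  · have : (N : ℂ) ≠ 0 := by exact_mod_cast h
    rw [div_self this, mul_one, Complex.exp_two_pi_mul_I]

theorem xi_norm : star (xi N) * xi N = 1 := by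
  have h1 : ‖xi N‖ = 1 := by
    unfold xi
    rw [Complex.norm_exp]
    have : (2 * Real.pi * Complex.I / N : ℂ).re = 0 := by
      have e : (2 * Real.pi * Complex.I / N : ℂ) = ((2 * Real.pi / N : ℝ) : ℂ) * Complex.I := by
        push_cast; ring
      rw [e, Complex.re_ofReal_mul, Complex.I_re, mul_zero]
    rw [this, Real.exp_zero]
  rw [RCLike.star_def, ← Complex.normSq_eq_conj_mul_self, Complex.normSq_eq_norm_sq, h1]
  simp

/-- the centre elements -/
def cen (N m : ℕ) : SU N :=
  ⟨xi N ^ m • (1 : Matrix (Fin N) (Fin N) ℂ), by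
    rw [SU_mem_iff]
    constructor
    · rw [star_smul, star_one, smul_mul_smul_comm, one_mul, star_pow, ← mul_pow, mul_comm (xi N),
        xi_norm, one_pow, one_smul]
    · rw [det_smul, det_one, mul_one, Fintype.card_fin, ← pow_mul, mul_comm, pow_mul, xi_N,
        one_pow]⟩

theorem cen_comm (m : ℕ) (g : SU N) : cen N m * g = g * cen N m := by
  apply Subtype.ext
  rw [coe_mul', coe_mul']
  show xi N ^ m • (1 : Matrix (Fin N) (Fin N) ℂ) * g.1 = g.1 * (xi N ^ m • 1)
  rw [smul_mul_assoc, one_mul, mul_smul_comm, mul_one]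

theorem cen_add (a b : ℕ) : cen N (a + b) = cen N a * cen N b := by
  apply Subtype.ext
  rw [coe_mul']
  show xi N ^ (a + b) • (1 : Matrix (Fin N) (Fin N) ℂ) = xi N ^ a • 1 * xi N ^ b • 1
  rw [smul_mul_smul_comm, one_mul, pow_add]

theorem cen_zero : cen N 0 = 1 := by
  apply Subtype.ext
  show xi N ^ 0 • (1 : Matrix (Fin N) (Fin N) ℂ) = 1
  rw [pow_zero, one_smul]

theorem aw_cen (m : ℕ) (g : SU N) :
    (N : ℝ) - (xi N ^ m * Matrix.trace g.1).re = dd (cen N m * g) 1 ^ 2 / 2 := by
  rw [← aw_one_eq]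
  unfold aw
  rw [one_mul, coe_mul']
  show _ = (N : ℝ) - (Matrix.trace (xi N ^ m • (1 : Matrix (Fin N) (Fin N) ℂ) * g.1)).re
  rw [smul_mul_assoc, one_mul, Matrix.trace_smul, smul_eq_mul]

/-! ### paths and rectangles -/

theorem dd_mul_one (a b : SU N) : dd (a * b) 1 ≤ dd a 1 + dd b 1 := by
  have := dd_mul_mul a b 1 1
  rwa [mul_one] at this

theorem dd_conj_one (g a : SU N) : dd (g * a * g⁻¹) 1 = dd a 1 := by
  have h := dd_mul_right (g * a) g g⁻¹
  rw [mul_inv_cancel] at h
  rw [h]
  have h2 := dd_mul_left a 1 g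
  rwa [mul_one] at h2

section paths

variable {S : Type*} [AddCommGroup S] (e : Fin 4 → S) (U : Fin 4 × S → SU N)

/-- the product of `m` consecutive links -/
def seg (i : Fin 4) (x : S) : ℕ → SU N
  | 0 => 1
  | m + 1 => seg i x m * U (i, x + m • e i)

/-- the plaquette -/
def pl (x : S) (i j : Fin 4) : SU N :=
  U (i, x) * U (j, x + e i) * (U (i, x + e j))⁻¹ * (U (j, x))⁻¹

/-- the boundary of a rectangle -/
def rec (x : S) (i j : Fin 4) (m n : ℕ) : SU N :=
  seg e U i x m * seg e U j (x + m • e i) n * (seg e U i (x + n • e j) m)⁻¹ *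
    (seg e U j x n)⁻¹

theorem rec_zero_left (x : S) (i j : Fin 4) (n : ℕ) : rec e U x i j 0 n = 1 := by
  unfold rec seg
  simp

theorem rec_succ_left (x : S) (i j : Fin 4) (m n : ℕ) :
    rec e U x i j (m + 1) n =
      seg e U i x m * rec e U (x + m • e i) i j 1 n * (seg e U i x m)⁻¹ * rec e U x i j m n := by
  have e1 : x + (m + 1) • e i = x + m • e i + 1 • e i := by rw [add_smul, add_assoc]
  have e2 : x + n • e j + m • e i = x + m • e i + n • e j := by abel
  unfold rec
  simp only [seg, e1, e2]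
  simp only [zero_smul, add_zero, one_mul, one_smul]
  group

theorem rec_zero_right (x : S) (i j : Fin 4) : rec e U x i j 1 0 = 1 := by
  unfold rec seg
  simp [seg]

theorem rec_succ_right (x : S) (i j : Fin 4) (n : ℕ) :
    rec e U x i j 1 (n + 1) =
      rec e U x i j 1 n * (seg e U j x n * pl e U (x + n • e j) i j * (seg e U j x n)⁻¹) := by
  have e1 : x + (n + 1) • e j = x + n • e j + e j := by rw [add_smul, one_smul, add_assoc]
  have e2 : x + n • e j + e i = x + e i + n • e j := by abel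
  unfold rec pl
  simp only [seg, e1, e2]
  simp only [zero_smul, add_zero, one_mul, one_smul]
  group

theorem rec_one_le (c : S → ℕ) (x : S) (i j : Fin 4) (n : ℕ) :
    dd (cen N (∑ t ∈ Finset.range n, c (x + t • e j)) * rec e U x i j 1 n) 1 ≤
      ∑ t ∈ Finset.range n, dd (cen N (c (x + t • e j)) * pl e U (x + t • e j) i j) 1 := by
  induction n with
  | zero => rw [rec_zero_right]; simp [cen_zero, dd_self]
  | succ n ih =>
    rw [Finset.sum_range_succ, Finset.sum_range_succ, rec_succ_right, cen_add]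
    have h : cen N (∑ t ∈ Finset.range n, c (x + t • e j)) * cen N (c (x + n • e j)) *
        (rec e U x i j 1 n * (seg e U j x n * pl e U (x + n • e j) i j * (seg e U j x n)⁻¹)) =
        (cen N (∑ t ∈ Finset.range n, c (x + t • e j)) * rec e U x i j 1 n) *
          (seg e U j x n * (cen N (c (x + n • e j)) * pl e U (x + n • e j) i j) *
            (seg e U j x n)⁻¹) := by
      have h1 := cen_comm (c (x + n • e j)) (rec e U x i j 1 n)
      have h2 := cen_comm (c (x + n • e j)) (seg e U j x n)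
      calc _ = cen N (∑ t ∈ Finset.range n, c (x + t • e j)) *
            (cen N (c (x + n • e j)) * rec e U x i j 1 n) *
              (seg e U j x n * pl e U (x + n • e j) i j * (seg e U j x n)⁻¹) := by group
        _ = cen N (∑ t ∈ Finset.range n, c (x + t • e j)) * rec e U x i j 1 n *
              ((cen N (c (x + n • e j)) * seg e U j x n) * pl e U (x + n • e j) i j *
                (seg e U j x n)⁻¹) := by rw [h1]; group
        _ = _ := by rw [h2]; group
    rw [h]
    refine (dd_mul_one _ _).trans (add_le_add ih ?_)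
    rw [dd_conj_one]

theorem rec_le (c : S → ℕ) (x : S) (i j : Fin 4) (m n : ℕ) :
    dd (cen N (∑ s ∈ Finset.range m, ∑ t ∈ Finset.range n, c (x + s • e i + t • e j)) *
        rec e U x i j m n) 1 ≤
      ∑ s ∈ Finset.range m, ∑ t ∈ Finset.range n,
        dd (cen N (c (x + s • e i + t • e j)) * pl e U (x + s • e i + t • e j) i j) 1 := by
  induction m with
  | zero => rw [rec_zero_left]; simp [cen_zero, dd_self]
  | succ m ih =>
    rw [Finset.sum_range_succ, Finset.sum_range_succ, rec_succ_left, add_comm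
      (∑ s ∈ Finset.range m, ∑ t ∈ Finset.range n, c (x + s • e i + t • e j)), cen_add]
    obtain ⟨A, hA⟩ : ∃ A, A = ∑ s ∈ Finset.range m, ∑ t ∈ Finset.range n,
      c (x + s • e i + t • e j) := ⟨_, rfl⟩
    obtain ⟨B, hB⟩ : ∃ B, B = ∑ t ∈ Finset.range n, c (x + m • e i + t • e j) := ⟨_, rfl⟩
    rw [← hA] at ih ⊢
    rw [← hB]
    have h : cen N B * cen N A * (seg e U i x m * rec e U (x + m • e i) i j 1 n *
        (seg e U i x m)⁻¹ * rec e U x i j m n) =
        (seg e U i x m * (cen N B * rec e U (x + m • e i) i j 1 n) * (seg e U i x m)⁻¹) *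
          (cen N A * rec e U x i j m n) := by
      have h2 := cen_comm B (seg e U i x m)
      have h3 := cen_comm A (seg e U i x m * (cen N B * rec e U (x + m • e i) i j 1 n) *
        (seg e U i x m)⁻¹)
      have h4 := cen_comm A (cen N B)
      calc _ = cen N B * cen N A * (seg e U i x m * rec e U (x + m • e i) i j 1 n *
            (seg e U i x m)⁻¹) * rec e U x i j m n := by group
        _ = cen N A * ((cen N B * seg e U i x m) * rec e U (x + m • e i) i j 1 n *
            (seg e U i x m)⁻¹) * rec e U x i j m n := by rw [← h4]; group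
        _ = cen N A * (seg e U i x m * (cen N B * rec e U (x + m • e i) i j 1 n) *
            (seg e U i x m)⁻¹) * rec e U x i j m n := by rw [h2]; group
        _ = _ := by rw [h3]; group
    rw [h]
    refine (dd_mul_one _ _).trans ?_
    rw [dd_conj_one]
    have h5 := rec_one_le e U c (x + m • e i) i j n
    rw [← hB] at h5
    linarith

end paths

/-! ### the coarse coordinates -/

/-- multiplication by `r` -/
def mr (r : ℕ) {n : ℕ} (x : ZMod n) : ZMod (r * n) := ((r * x.val : ℕ) : ZMod (r * n))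

theorem mr_add_one {r n : ℕ} [NeZero n] (x : ZMod n) : mr r (x + 1) = mr r x + (r : ZMod (r * n)) := by
  unfold mr
  have h : ((r * (x + 1).val : ℕ) : ZMod (r * n)) = ((r * (x.val + 1) : ℕ) : ZMod (r * n)) := by
    rw [ZMod.natCast_eq_natCast_iff]
    have h1 : (x + 1).val ≡ x.val + 1 [MOD n] := by
      rw [ZMod.val_add]
      refine (Nat.mod_modEq _ _).trans ?_
      refine Nat.ModEq.add_left _ ?_
      have : (1 : ZMod n).val ≡ 1 [MOD n] := by
        have := ZMod.val_natCast n 1
        rw [Nat.cast_one] at this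
        rw [this]
        exact Nat.mod_modEq _ _
      exact this
    exact Nat.ModEq.mul_left' r h1
  rw [h]
  push_cast
  ring

theorem mr_inj {r n : ℕ} [NeZero n] [NeZero r] {x x' : ZMod n} {b b' : ℕ} (hb : b < r) (hb' : b' < r)
    (h : mr r x - (b : ZMod (r * n)) = mr r x' - (b' : ZMod (r * n))) : x = x' ∧ b = b' := by
  have h1 : ((r * x.val + b' : ℕ) : ZMod (r * n)) = ((r * x'.val + b : ℕ) : ZMod (r * n)) := by
    unfold mr at h
    push_cast at h ⊢
    linear_combination h
  rw [ZMod.natCast_eq_natCast_iff', Nat.mod_eq_of_lt, Nat.mod_eq_of_lt] at h1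
  · have h2 : x.val = x'.val := by
      have e1 : (r * x.val + b') / r = x.val := by
        rw [Nat.mul_add_div (NeZero.pos r), Nat.div_eq_of_lt hb', add_zero]
      have e2 : (r * x'.val + b) / r = x'.val := by
        rw [Nat.mul_add_div (NeZero.pos r), Nat.div_eq_of_lt hb, add_zero]
      rw [← e1, h1, e2]
    refine ⟨ZMod.val_injective n h2, ?_⟩
    rw [h2] at h1
    omega
  · have := ZMod.val_lt x'
    nlinarith
  · have := ZMod.val_lt x
    nlinarith

theorem mr_zero {r n : ℕ} [NeZero n] [NeZero r] {x : ZMod n} {b s : ℕ} (hb : b < r) (hs : s < r) :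
    mr r x - (b : ZMod (r * n)) + s = 0 ↔ x = 0 ∧ s = b := by
  constructor
  · intro h
    have h1 : mr r x - (b : ZMod (r * n)) = mr r (0 : ZMod n) - (s : ZMod (r * n)) := by
      have : mr r (0 : ZMod n) = 0 := by unfold mr; simp
      rw [this]
      linear_combination h
    obtain ⟨h2, h3⟩ := mr_inj hb hs h1
    exact ⟨h2, h3.symm⟩
  · rintro ⟨rfl, rfl⟩
    unfold mr
    simp

theorem sum_mr {r n : ℕ} [NeZero n] [NeZero r] (x : ZMod n) {b : ℕ} (hb : b < r) :
    ∑ s ∈ Finset.range r, (if mr r x - (b : ZMod (r * n)) + s = 0 then 1 else 0) =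
      if x = 0 then 1 else 0 := by
  by_cases hx : x = 0
  · rw [if_pos hx, Finset.sum_eq_single b]
    · rw [if_pos ((mr_zero hb hb).2 ⟨hx, rfl⟩)]
    · intro s hs hsb
      rw [if_neg]
      intro h
      exact hsb ((mr_zero hb (Finset.mem_range.1 hs)).1 h).2
    · intro h
      exact absurd (Finset.mem_range.2 hb) h
  · rw [if_neg hx]
    refine Finset.sum_eq_zero fun s hs => if_neg fun h => hx ?_
    exact ((mr_zero hb (Finset.mem_range.1 hs)).1 h).1

section main

variable {n L l r : ℕ} [NeZero n] [NeZero L] [NeZero l] [NeZero r]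

/-- the offsets -/
abbrev Off (r : ℕ) : Type := Fin r × Fin r × Fin r × Fin r

/-- the fine site of a coarse site -/
def fs (b : Off r) (X : Site n L l) : Site (r * n) (r * L) (r * l) :=
  (mr r X.1 - (b.1 : ℕ), mr r X.2.1 - (b.2.1 : ℕ), mr r X.2.2.1 - (b.2.2.1 : ℕ),
    mr r X.2.2.2 - (b.2.2.2 : ℕ))

theorem fs_dir (b : Off r) (X : Site n L l) (i : Fin 4) :
    fs b (X + dir i) = fs b X + r • (dir i : Site (r * n) (r * L) (r * l)) := by
  fin_cases i <;>
    simp [fs, dir, Prod.ext_iff, mr_add_one, sub_add_eq_add_sub]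

/-- the bijection between pairs and fine sites -/
theorem fs_bij : Function.Bijective fun p : Off r × Site n L l => fs p.1 p.2 := by
  rw [Fintype.bijective_iff_injective_and_card]
  constructor
  · rintro ⟨b, X⟩ ⟨b', X'⟩ h
    simp only [fs, Prod.ext_iff] at h
    obtain ⟨h1, h2, h3, h4⟩ := h
    have e1 := mr_inj b.1.2 b'.1.2 h1
    have e2 := mr_inj b.2.1.2 b'.2.1.2 h2
    have e3 := mr_inj b.2.2.1.2 b'.2.2.1.2 h3
    have e4 := mr_inj b.2.2.2.2 b'.2.2.2.2 h4
    simp only [Prod.ext_iff, Fin.ext_iff]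
    exact ⟨⟨e1.2, e2.2, e3.2, e4.2⟩, e1.1, e2.1, e3.1, e4.1⟩
  · simp only [Fintype.card_prod, Fintype.card_fin, ZMod.card]
    ring

theorem sum_fs (f : Site (r * n) (r * L) (r * l) → ℝ) :
    ∑ b : Off r, ∑ X : Site n L l, f (fs b X) = ∑ z, f z := by
  rw [← Finset.sum_product']
  exact (Fintype.sum_bijective _ fs_bij _ _ fun p => rfl)

theorem sum_fs_shift (f : Site (r * n) (r * L) (r * l) → ℝ) (c : Site (r * n) (r * L) (r * l)) :
    ∑ b : Off r, ∑ X : Site n L l, f (fs b X + c) = ∑ z, f z := by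
  rw [sum_fs fun z => f (z + c)]
  exact Fintype.sum_equiv (Equiv.addRight c) _ _ fun _ => rfl

/-- the exponent of the twist -/
def ex {n L l : ℕ} (k j : ℕ) (x : Site n L l) (a b : Fin 4) : ℕ :=
  (if a = 2 ∧ b = 3 then k * ((if x.2.2.1 = 0 then 1 else 0) * (if x.2.2.2 = 0 then 1 else 0)) else 0)
    + if a = 0 ∧ b = 1 then j * ((if x.1 = 0 then 1 else 0) * (if x.2.1 = 0 then 1 else 0)) else 0

theorem twist2_eq {n L l : ℕ} (k j : ℕ) (x : Site n L l) (a b : Fin 4) :
    twist2 N k j x a b = xi N ^ ex k j x a b := by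
  rw [xi_pow]
  unfold twist2 ex
  by_cases h1 : a = 2 ∧ b = 3
  · have h2 : ¬ (a = 0 ∧ b = 1) := by
      rintro ⟨h, -⟩
      rw [h1.1] at h
      exact absurd h (by decide)
    rw [if_pos h1, if_neg h2]
    by_cases h3 : x.2.2 = 0
    · rw [if_pos ⟨h1.1, h1.2, h3⟩]
      simp [h3]
    · rw [if_neg (fun h => h3 h.2.2), if_neg (fun h => h2 ⟨h.1, h.2.1⟩)]
      have : ¬ (x.2.2.1 = 0 ∧ x.2.2.2 = 0) := fun h => h3 (Prod.ext h.1 h.2)
      rcases not_and_or.1 this with h | h <;> simp [h]
  · rw [if_neg h1, if_neg (fun h => h1 ⟨h.1, h.2.1⟩)]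
    by_cases h2 : a = 0 ∧ b = 1
    · rw [if_pos h2]
      by_cases h3 : x.1 = 0 ∧ x.2.1 = 0
      · rw [if_pos ⟨h2.1, h2.2, h3.1, h3.2⟩]
        simp [h3.1, h3.2]
      · rw [if_neg (fun h => h3 h.2.2)]
        rcases not_and_or.1 h3 with h | h <;> simp [h]
    · rw [if_neg h2, if_neg (fun h => h2 ⟨h.1, h.2.1⟩)]
      simp

theorem ex_sum (k j : ℕ) (b : Off r) (X : Site n L l) (a a' : Fin 4) :
    ∑ s ∈ Finset.range r, ∑ t ∈ Finset.range r,
      ex k j (fs b X + s • (dir a : Site (r * n) (r * L) (r * l)) + t • dir a') a a' =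
        ex k j X a a' := by
  unfold ex
  by_cases h1 : a = 2 ∧ a' = 3
  · obtain ⟨rfl, rfl⟩ := h1
    have h2 : ¬ ((2 : Fin 4) = 0 ∧ (3 : Fin 4) = 1) := by decide
    simp only [true_and, if_true, if_neg h2, add_zero, ← Finset.mul_sum]
    congr 1
    rw [← sum_mr (r := r) X.2.2.1 b.2.2.1.2, ← sum_mr (r := r) X.2.2.2 b.2.2.2.2,
      Finset.sum_mul_sum]
    refine Finset.sum_congr rfl fun s _ => Finset.sum_congr rfl fun t _ => ?_
    simp [fs, dir]
  · rw [if_neg h1]
    simp only [if_neg h1, zero_add]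
    by_cases h2 : a = 0 ∧ a' = 1
    · obtain ⟨rfl, rfl⟩ := h2
      simp only [true_and, if_true, ← Finset.mul_sum]
      congr 1
      rw [← sum_mr (r := r) X.1 b.1.2, ← sum_mr (r := r) X.2.1 b.2.1.2, Finset.sum_mul_sum]
      refine Finset.sum_congr rfl fun s _ => Finset.sum_congr rfl fun t _ => ?_
      simp [fs, dir]
    · simp [h2]

/-- the coarse configuration -/
def co (b : Off r) (U : Link (r * n) (r * L) (r * l) → SU N) : Link n L l → SU N :=
  fun p => seg dir U p.1 (fs b p.2) r

theorem plaq_co (b : Off r) (U : Link (r * n) (r * L) (r * l) → SU N) (X : Site n L l)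
    (i j : Fin 4) : plaq (co b U) X i j = rec dir U (fs b X) i j r r := by
  unfold plaq co rec
  simp only [fs_dir]

theorem co_le (k j : ℕ) (b : Off r) (U : Link (r * n) (r * L) (r * l) → SU N) (X : Site n L l)
    (a a' : Fin 4) :
    (N : ℝ) - (twist2 N k j X a a' * Matrix.trace (plaq (co b U) X a a').1).re ≤
      r ^ 2 * ∑ s ∈ Finset.range r, ∑ t ∈ Finset.range r,
        ((N : ℝ) - (twist2 N k j (fs b X + s • (dir a : Site (r * n) (r * L) (r * l)) +
            t • dir a') a a' *
          Matrix.trace (plaq U (fs b X + s • (dir a : Site (r * n) (r * L) (r * l)) +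
            t • dir a') a a').1).re) := by
  rw [twist2_eq, aw_cen, plaq_co]
  have h := rec_le dir U (fun x => ex k j x a a') (fs b X) a a' r r
  rw [ex_sum] at h
  have h2 : ∀ x : Site (r * n) (r * L) (r * l), (N : ℝ) - (twist2 N k j x a a' *
      Matrix.trace (plaq U x a a').1).re = dd (cen N (ex k j x a a') * pl dir U x a a') 1 ^ 2 / 2 :=
    fun x => by rw [twist2_eq, aw_cen]; rfl
  simp only [h2]
  rw [← Finset.sum_product'] at h ⊢
  obtain ⟨f, hf⟩ : ∃ f : ℕ × ℕ → ℝ, f = fun p => dd (cen N (ex k j (fs b X +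
    p.1 • (dir a : Site (r * n) (r * L) (r * l)) + p.2 • dir a') a a') *
      pl dir U (fs b X + p.1 • (dir a : Site (r * n) (r * L) (r * l)) + p.2 • dir a') a a') 1 :=
    ⟨_, rfl⟩
  have h' : dd (cen N (ex k j X a a') * rec dir U (fs b X) a a' r r) 1 ≤
      ∑ p ∈ Finset.range r ×ˢ Finset.range r, f p := by rw [hf]; exact h
  have hcs := sq_sum_le_card_mul_sum_sq (s := Finset.range r ×ˢ Finset.range r) (f := f)
  rw [Finset.card_product, Finset.card_range] at hcs
  have h0 := dd_nonneg (cen N (ex k j X a a') * rec dir U (fs b X) a a' r r) 1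
  have h3 : dd (cen N (ex k j X a a') * rec dir U (fs b X) a a' r r) 1 ^ 2 ≤
      r ^ 2 * ∑ p ∈ Finset.range r ×ˢ Finset.range r, f p ^ 2 := by
    refine (pow_le_pow_left₀ h0 h' 2).trans (hcs.trans (le_of_eq ?_))
    push_cast
    ring
  have h4 : ∑ p ∈ Finset.range r ×ˢ Finset.range r, f p ^ 2 / 2 =
      (∑ p ∈ Finset.range r ×ˢ Finset.range r, f p ^ 2) / 2 := by rw [Finset.sum_div]
  have h5 : ∑ p ∈ Finset.range r ×ˢ Finset.range r, dd (cen N (ex k j (fs b X +
      p.1 • (dir a : Site (r * n) (r * L) (r * l)) + p.2 • dir a') a a') *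
      pl dir U (fs b X + p.1 • (dir a : Site (r * n) (r * L) (r * l)) + p.2 • dir a') a a') 1 ^ 2
        / 2 = (∑ p ∈ Finset.range r ×ˢ Finset.range r, f p ^ 2) / 2 := by
    rw [← h4, hf]
  rw [h5]
  linarith

theorem aver (k j : ℕ) (U : Link (r * n) (r * L) (r * l) → SU N) :
    ∑ b : Off r, action2 k j (co (n := n) (L := L) (l := l) b U) ≤ r ^ 4 * action2 k j U := by
  unfold action2
  obtain ⟨g, hg⟩ : ∃ g : Fin 4 → Fin 4 → Site (r * n) (r * L) (r * l) → ℝ, g = fun a a' x =>
    (N : ℝ) - (twist2 N k j x a a' * Matrix.trace (plaq U x a a').1).re := ⟨_, rfl⟩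
  have h1 : ∀ b : Off r, ∑ X : Site n L l, ∑ a : Fin 4, ∑ a' ∈ Finset.Ioi a,
      ((N : ℝ) - (twist2 N k j X a a' * Matrix.trace (plaq (co b U) X a a').1).re) ≤
      ∑ X : Site n L l, ∑ a : Fin 4, ∑ a' ∈ Finset.Ioi a, r ^ 2 * ∑ s ∈ Finset.range r,
        ∑ t ∈ Finset.range r, g a a' (fs b X +
          (s • (dir a : Site (r * n) (r * L) (r * l)) + t • dir a')) := by
    intro b
    refine Finset.sum_le_sum fun X _ => Finset.sum_le_sum fun a _ => Finset.sum_le_sum fun a' _ => ?_
    refine (co_le k j b U X a a').trans (le_of_eq ?_)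
    rw [hg]
    simp only [add_assoc]
  refine (Finset.sum_le_sum fun b _ => h1 b).trans (le_of_eq ?_)
  have h2 : ∑ b : Off r, ∑ X : Site n L l, ∑ a : Fin 4, ∑ a' ∈ Finset.Ioi a,
      (r : ℝ) ^ 2 * ∑ s ∈ Finset.range r, ∑ t ∈ Finset.range r, g a a' (fs b X +
          (s • (dir a : Site (r * n) (r * L) (r * l)) + t • dir a')) =
      ∑ a : Fin 4, ∑ a' ∈ Finset.Ioi a, (r : ℝ) ^ 2 * ∑ s ∈ Finset.range r,
        ∑ t ∈ Finset.range r, ∑ b : Off r, ∑ X : Site n L l, g a a' (fs b X +
          (s • (dir a : Site (r * n) (r * L) (r * l)) + t • dir a')) := by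
    rw [← Finset.sum_product', Finset.sum_comm]
    refine Finset.sum_congr rfl fun a _ => ?_
    rw [Finset.sum_comm]
    refine Finset.sum_congr rfl fun a' _ => ?_
    rw [← Finset.mul_sum, Finset.sum_comm]
    congr 1
    refine Finset.sum_congr rfl fun s _ => ?_
    rw [Finset.sum_comm]
    refine Finset.sum_congr rfl fun t _ => ?_
    rw [Finset.sum_product]
  rw [h2]
  simp only [sum_fs_shift]
  simp only [Finset.sum_const, Finset.card_range, nsmul_eq_mul]
  have h3 : ∑ x : Site (r * n) (r * L) (r * l), ∑ a : Fin 4, ∑ a' ∈ Finset.Ioi a,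
      ((N : ℝ) - (twist2 N k j x a a' * Matrix.trace (plaq U x a a').1).re) =
      ∑ a : Fin 4, ∑ a' ∈ Finset.Ioi a, ∑ x, g a a' x := by
    rw [hg, Finset.sum_comm]
    refine Finset.sum_congr rfl fun a _ => ?_
    rw [Finset.sum_comm]
  rw [h3, Finset.mul_sum]
  refine Finset.sum_congr rfl fun a _ => ?_
  rw [Finset.mul_sum]
  refine Finset.sum_congr rfl fun a' _ => ?_
  ring

end main

end

end Pool.Agent.Run7.h897.DC

namespace Run7.h4.VS

open Pool.Agent.Run7.h897.DC

theorem action2_nonneg' {N n L l : ℕ} [NeZero n] [NeZero L] [NeZero l] (k j : ℕ)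
    (U : Link n L l → SU N) : 0 ≤ action2 k j U := by
  unfold action2
  refine Finset.sum_nonneg fun x _ => Finset.sum_nonneg fun a _ => Finset.sum_nonneg fun b _ => ?_
  rw [twist2_eq, aw_cen]
  positivity

theorem minAction_le {N n L l : ℕ} [NeZero n] [NeZero L] [NeZero l] (k j : ℕ)
    (U : Link n L l → SU N) : minAction N n L l k j ≤ action2 k j U :=
  csInf_le ⟨0, by rintro _ ⟨V, rfl⟩; exact action2_nonneg' k j V⟩ ⟨U, rfl⟩

/-- **Decimation**: the minimal action does not decrease when the lattice is refined. -/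
theorem minAction_mul (N n L l k j r : ℕ) [NeZero n] [NeZero L] [NeZero l] [NeZero r] :
    minAction N n L l k j ≤ minAction N (r * n) (r * L) (r * l) k j := by
  haveI : Nonempty (SU N) := ⟨1⟩
  refine le_csInf (Set.range_nonempty _) ?_
  rintro _ ⟨U, rfl⟩
  have h1 := aver (n := n) (L := L) (l := l) k j U
  have h2 : ∑ _b : Off r, minAction N n L l k j ≤
      ∑ b : Off r, action2 k j (co (n := n) (L := L) (l := l) b U) :=
    Finset.sum_le_sum fun b _ => minAction_le k j _
  rw [Finset.sum_const, Finset.card_univ] at h2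
  simp only [Fintype.card_prod, Fintype.card_fin, nsmul_eq_mul] at h2
  have hr : (0 : ℝ) < (r : ℝ) ^ 4 := by
    have : (0 : ℝ) < r := by exact_mod_cast NeZero.pos r
    positivity
  have h3 : (r : ℝ) ^ 4 * minAction N n L l k j ≤ r ^ 4 * action2 k j U := by
    refine le_trans (le_of_eq ?_) (h2.trans h1)
    push_cast
    ring
  exact le_of_mul_le_mul_left h3 hr

end Run7.h4.VS
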